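import Pool.Agent.Mob.Stmts

/-!
# Module GZB: elementary facts on the finite volume resolvent
-/

set_option autoImplicit false
set_option linter.unusedSectionVars false

open MeasureTheory ProbabilityTheory Function

open scoped ENNReal BigOperators InnerProductSpace

noncomputable section

namespace Pool.Agent.Mob.H11

open Pool.Agent.Anderson Pool.Agent.Loc Pool.Agent.Helper54.Bal

section generic

variable {n : Type*} [Fintype n] [DecidableEq n]

/-- a hermitian matrix minus `z`, at distance `δ` from the spectrum -/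
theorem norm_ge (A : Matrix n n ℂ) (hA : A.IsHermitian) (z : ℂ) (δ : ℝ) (hδ : 0 ≤ δ)
    (h : ∀ j, δ ≤ ‖z - (hA.eigenvalues j : ℂ)‖) (w : EuclideanSpace ℂ n) :
    δ * ‖w‖ ≤ ‖z • w - Matrix.toEuclideanLin A w‖ := by
  set T := Matrix.toEuclideanLin A with hT
  have hsym : T.IsSymmetric := Matrix.isHermitian_iff_isSymmetric.1 hA
  set b := hA.eigenvectorBasis with hb
  have hTb : ∀ j, T (b j) = (hA.eigenvalues j : ℂ) • b j := by
    intro j
    have h1 := hA.mulVec_eigenvectorBasis j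
    rw [hT, Matrix.toEuclideanLin_apply, hb]
    ext i
    have h2 := congrFun h1 i
    simp only [PiLp.smul_apply, smul_eq_mul]
    rw [h2]
    simp
  have hin : ∀ j, ⟪b j, z • w - T w⟫_ℂ = (z - (hA.eigenvalues j : ℂ)) * ⟪b j, w⟫_ℂ := by
    intro j
    rw [inner_sub_right, inner_smul_right, ← hsym (b j) w, hTb, inner_smul_left,
      Complex.conj_ofReal]
    ring
  have h1 := b.sum_sq_norm_inner_right (z • w - T w)
  have h2 := b.sum_sq_norm_inner_right w
  have h3 : δ ^ 2 * ‖w‖ ^ 2 ≤ ‖z • w - T w‖ ^ 2 := by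
    rw [← h1, ← h2, Finset.mul_sum]
    apply Finset.sum_le_sum
    intro j _
    rw [hin, norm_mul, mul_pow]
    exact mul_le_mul_of_nonneg_right (pow_le_pow_left₀ hδ (h j) 2) (by positivity)
  rw [← mul_pow] at h3
  exact (pow_le_pow_iff_left₀ (by positivity) (norm_nonneg _) (by norm_num)).1 h3

theorem lin_eq (A : Matrix n n ℂ) (z : ℂ) (w : n → ℂ) :
    z • (WithLp.toLp 2 w : EuclideanSpace ℂ n) - Matrix.toEuclideanLin A (WithLp.toLp 2 w) =
      WithLp.toLp 2 ((z • (1 : Matrix n n ℂ) - A).mulVec w) := by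
  rw [Matrix.toEuclideanLin_apply, Matrix.sub_mulVec, Matrix.smul_mulVec, Matrix.one_mulVec]
  rfl

theorem det_ne (A : Matrix n n ℂ) (hA : A.IsHermitian) (z : ℂ) (δ : ℝ) (hδ : 0 < δ)
    (h : ∀ j, δ ≤ ‖z - (hA.eigenvalues j : ℂ)‖) : (z • (1 : Matrix n n ℂ) - A).det ≠ 0 := by
  intro h0
  obtain ⟨v, hv, hv0⟩ := Matrix.exists_mulVec_eq_zero_iff.2 h0
  have h1 := norm_ge A hA z δ hδ.le h (WithLp.toLp 2 v)
  rw [lin_eq, hv0] at h1
  have h2 : ‖(WithLp.toLp 2 (0 : n → ℂ) : EuclideanSpace ℂ n)‖ = 0 := by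
    rw [norm_eq_zero]
    rfl
  rw [h2] at h1
  have h3 : 0 < ‖(WithLp.toLp 2 v : EuclideanSpace ℂ n)‖ := by
    rw [norm_pos_iff]
    intro h4
    apply hv
    have := congrArg WithLp.ofLp h4
    simpa using this
  have h5 : 0 < δ * ‖(WithLp.toLp 2 v : EuclideanSpace ℂ n)‖ := by positivity
  linarith

theorem inv_le (A : Matrix n n ℂ) (hA : A.IsHermitian) (z : ℂ) (δ : ℝ) (hδ : 0 < δ)
    (h : ∀ j, δ ≤ ‖z - (hA.eigenvalues j : ℂ)‖) (i j : n) :
    ‖(z • (1 : Matrix n n ℂ) - A)⁻¹ i j‖ ≤ δ⁻¹ := by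
  have hdet := det_ne A hA z δ hδ h
  set M := z • (1 : Matrix n n ℂ) - A with hM
  set w : n → ℂ := M⁻¹.mulVec (Pi.single j 1) with hw
  have hwi : ∀ i, w i = M⁻¹ i j := by
    intro i
    rw [hw, Matrix.mulVec_single_one]
    rfl
  have h1 := norm_ge A hA z δ hδ.le h (WithLp.toLp 2 w)
  rw [lin_eq, ← hM, hw, Matrix.mulVec_mulVec, Matrix.mul_nonsing_inv _ (isUnit_iff_ne_zero.2 hdet),
    Matrix.one_mulVec, ← hw] at h1
  have h2 : ‖(WithLp.toLp 2 (Pi.single j (1 : ℂ)) : EuclideanSpace ℂ n)‖ = 1 := by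
    have := EuclideanSpace.norm_single j (1 : ℂ)
    rw [norm_one] at this
    rw [← this]
    rfl
  rw [h2] at h1
  have h3 : ‖w i‖ ≤ ‖(WithLp.toLp 2 w : EuclideanSpace ℂ n)‖ :=
    PiLp.norm_apply_le (WithLp.toLp 2 w : EuclideanSpace ℂ n) i
  rw [hwi i] at h3
  have h4 : δ * ‖M⁻¹ i j‖ ≤ 1 := (mul_le_mul_of_nonneg_left h3 hδ.le).trans h1
  have h5 : ‖M⁻¹ i j‖ ≤ 1 / δ := by
    rw [le_div_iff₀ hδ, mul_comm]
    exact h4
  rwa [one_div] at h5

theorem diff_det {f : ℂ → Matrix n n ℂ} {z : ℂ}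
    (hf : ∀ i j, DifferentiableAt ℂ (fun w => f w i j) z) :
    DifferentiableAt ℂ (fun w => (f w).det) z := by
  simp only [Matrix.det_apply]
  apply DifferentiableAt.fun_sum
  intro σ _
  apply DifferentiableAt.fun_const_smul
  apply DifferentiableAt.fun_finsetProd
  intro i _
  exact hf _ _

end generic

variable {d : ℕ}

theorem map_RM (V : Site d → ℝ) (Λ : Finset (Site d)) (E : ℝ) :
    (RM V Λ E).map (Complex.ofRealHom) = (E : ℂ) • (1 : Matrix Λ Λ ℂ) - HC V Λ := by
  ext x y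
  simp only [RM, HC, Matrix.map_apply, Matrix.sub_apply, Matrix.smul_apply, smul_eq_mul,
    Complex.ofRealHom_eq_coe, Complex.ofReal_sub, Complex.ofReal_mul]
  congr 2
  rw [Matrix.one_apply, Matrix.one_apply]
  split_ifs <;> simp

theorem det_map_RM (V : Site d → ℝ) (Λ : Finset (Site d)) (E : ℝ) :
    ((E : ℂ) • (1 : Matrix Λ Λ ℂ) - HC V Λ).det = ((RM V Λ E).det : ℂ) := by
  rw [← map_RM]
  have := RingHom.map_det Complex.ofRealHom (RM V Λ E)
  rw [RingHom.mapMatrix_apply] at this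
  exact this.symm

theorem gz_real (V : Site d → ℝ) (Λ : Finset (Site d)) (x y : Site d) (E : ℝ) :
    gz V Λ (E : ℂ) x y = (gr V Λ E x y : ℂ) := by
  unfold gz gr
  by_cases h : x ∈ Λ ∧ y ∈ Λ
  · rw [dif_pos h, dif_pos h, Matrix.inv_def, Matrix.inv_def, det_map_RM]
    simp only [Matrix.smul_apply, smul_eq_mul, Ring.inverse_eq_inv', Complex.ofReal_mul,
      Complex.ofReal_inv]
    congr 1
    rw [← map_RM]
    have := RingHom.map_adjugate Complex.ofRealHom (RM V Λ E)
    rw [RingHom.mapMatrix_apply, RingHom.mapMatrix_apply] at this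
    rw [← this]
    rfl
  · rw [dif_neg h, dif_neg h]
    simp

theorem eig_far {V : Site d → ℝ} {Λ : Finset (Site d)} {E r : ℝ} (h : NoEig V Λ E r) (j : Λ) :
    r < |(HC_herm V Λ).eigenvalues j - E| := by
  by_contra hc
  push Not at hc
  apply h _ hc
  have h1 : (((HC_herm V Λ).eigenvalues j : ℝ) : ℂ) • (1 : Matrix Λ Λ ℂ) - HC V Λ =
      (((HC_herm V Λ).eigenvalues j : ℝ) : ℂ) • (1 : Matrix Λ Λ ℂ) - HC V Λ := rfl
  have h2 : ((((HC_herm V Λ).eigenvalues j : ℝ) : ℂ) • (1 : Matrix Λ Λ ℂ) - HC V Λ).det = 0 := by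
    apply Matrix.exists_mulVec_eq_zero_iff.1
    refine ⟨fun i => (HC_herm V Λ).eigenvectorBasis j i, ?_, ?_⟩
    · intro h0
      have h3 := (HC_herm V Λ).eigenvectorBasis.norm_eq_one j
      have h4 : (HC_herm V Λ).eigenvectorBasis j = 0 := by
        ext i
        exact congrFun h0 i
      rw [h4, norm_zero] at h3
      norm_num at h3
    · have h3 := (HC_herm V Λ).mulVec_eigenvectorBasis j
      rw [Matrix.sub_mulVec, Matrix.smul_mulVec, Matrix.one_mulVec, sub_eq_zero]
      ext i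
      have h4 := congrFun h3 i
      rw [h4]
      simp
  rw [det_map_RM] at h2
  exact_mod_cast h2

theorem gzb : GzbStmt := by
  intro d V Λ x y
  refine ⟨gz_real V Λ x y, ?_, ?_⟩
  · intro z hz
    have hpos : 0 < |z.im| := abs_pos.2 hz
    have h : ∀ j, |z.im| ≤ ‖z - ((HC_herm V Λ).eigenvalues j : ℂ)‖ := by
      intro j
      have := Complex.abs_im_le_norm (z - ((HC_herm V Λ).eigenvalues j : ℂ))
      simpa using this
    refine ⟨det_ne _ (HC_herm V Λ) z _ hpos h, ?_⟩
    unfold gz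
    split_ifs with hxy
    · exact inv_le _ (HC_herm V Λ) z _ hpos h _ _
    · rw [norm_zero]
      positivity
  · intro E r hr hE z hz
    have h : ∀ j, r ≤ ‖z - ((HC_herm V Λ).eigenvalues j : ℂ)‖ := by
      intro j
      have h1 := Complex.abs_re_le_norm (z - ((HC_herm V Λ).eigenvalues j : ℂ))
      have h2 := eig_far hE j
      have h3 : (z - ((HC_herm V Λ).eigenvalues j : ℂ)).re =
          z.re - (HC_herm V Λ).eigenvalues j := by simp
      rw [h3] at h1
      refine le_trans ?_ h1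
      have h4 : |(HC_herm V Λ).eigenvalues j - E| ≤
          |z.re - (HC_herm V Λ).eigenvalues j| + |z.re - E| := by
        have := abs_sub_le ((HC_herm V Λ).eigenvalues j) z.re E
        rwa [abs_sub_comm ((HC_herm V Λ).eigenvalues j) z.re] at this
      linarith
    have hdet := det_ne _ (HC_herm V Λ) z r hr h
    refine ⟨hdet, ?_, ?_⟩
    · unfold gz
      split_ifs with hxy
      · exact inv_le _ (HC_herm V Λ) z _ hr h _ _
      · rw [norm_zero]
        positivity
    · unfold gz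
      by_cases hxy : x ∈ Λ ∧ y ∈ Λ
      · simp only [dif_pos hxy, Matrix.inv_def, Matrix.smul_apply, smul_eq_mul,
          Ring.inverse_eq_inv', Matrix.adjugate_apply]
        have hent : ∀ i j : Λ, DifferentiableAt ℂ
            (fun w : ℂ => (w • (1 : Matrix Λ Λ ℂ) - HC V Λ) i j) z := by
          intro i j
          simp only [Matrix.sub_apply, Matrix.smul_apply, smul_eq_mul]
          fun_prop
        have hd := diff_det hent
        refine DifferentiableAt.fun_mul (hd.fun_inv hdet) ?_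
        · apply diff_det
          intro i j
          simp only [Matrix.updateRow_apply]
          split_ifs
          · exact differentiableAt_const _
          · exact hent i j
      · simp only [dif_neg hxy]
        exact differentiableAt_const _

end Pool.Agent.Mob.H11
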